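import Mathlib
import Pool.Agent.R64.CogC

/-!
# MP_815355_co: an infinite antichain of weakly random cograph limits

Both questions have the answer yes: `(Φ_F, ⪯)` contains two incomparable elements, and even an
infinite antichain.  The elements are recursive blow-up limits `φ_G` for sequences `G` with long
blocks: in the block `[8^k, 8^(k+1))` exactly one of the sequences (number `(unpair k).1`) takes
`K_2`, all the others take the complement.  If `ψ = W|_f` is a sub-object of `φ` and `c = ∫ f` then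
`c^n ψ(K) ≤ φ(K)` for every graph `K` on `n` vertices; comparing the densities of cliques of size
`n = 2^(3·8^k)` contradicts this for all `c > 0`.
-/

open MeasureTheory

namespace Pool.Agent.Results.MP_815355_co.Antichain

open Pool.Agent.R64.CogA Pool.Agent.R64.CogB Pool.Agent.R64.CogC

theorem subObj_refl {φ : Param} (h : IsLimit φ) : SubObj φ φ := by
  obtain ⟨W, rfl⟩ := h
  refine ⟨W, fun _ => 1, rfl, measurable_const, fun t => by norm_num, by simp, ?_⟩
  funext n H
  simp [densOn, dens]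

theorem densOn_nonneg (W : Graphon) {f : unitInterval → ℝ}
    (hf : ∀ t, 0 ≤ f t ∧ f t ≤ 1) (hpos : 0 < ∫ t, f t) {n : ℕ} (K : SimpleGraph (Fin n)) :
    0 ≤ densOn W f n K := by
  unfold densOn
  apply div_nonneg _ (pow_nonneg hpos.le n)
  apply integral_nonneg
  intro x
  exact mul_nonneg (prodf_nonneg hf x) (ind_nonneg W K x)

theorem dens_nonneg (W : Graphon) {n : ℕ} (K : SimpleGraph (Fin n)) : 0 ≤ dens W n K :=
  integral_nonneg (fun x => ind_nonneg W K x)

theorem P_subset_Q {φ : Param} (h : IsLimit φ) : P φ ⊆ Q φ := fun _ hH => hH φ (subObj_refl h)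

theorem Q_subset (G : ℕ → Prop) : Q (dens (blow G)) ⊆ Cographs := by
  rintro ⟨n, H⟩ hH
  have hH' : 0 < ∫ x : Fin n → unitInterval, ind (blow G) H x := hH
  have : ∃ x : Fin n → unitInterval, ind (blow G) H x ≠ 0 := by
    by_contra hcon
    push Not at hcon
    simp only [hcon, integral_zero, lt_self_iff_false] at hH'
  obtain ⟨x, hx⟩ := this
  have h1 := (ind_blow_ne G H x).1 hx
  exact coset_of_seq G H (fun i => bit (x i)) h1 _ Finset.univ rfl

theorem subset_P (G : ℕ → Prop) (hG : Inf G) : Cographs ⊆ P (dens (blow G)) := by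
  rintro ⟨h, H⟩ hH ψ ⟨W, f, hW, hfm, hf, hpos, rfl⟩
  have hH' : CoSet H Finset.univ := hH
  by_contra hcon
  have hcon' : ¬ (0 < densOn W f h H) := hcon
  have hz : densOn W f h H = 0 := le_antisymm (not_lt.1 hcon') (densOn_nonneg W hf hpos H)
  have hz' : ∫ x : Fin h → unitInterval, (∏ i, f (x i)) * ind W H x = 0 := by
    unfold densOn at hz
    rcases div_eq_zero_iff.1 hz with h1 | h1
    · exact h1
    · exact absurd h1 (pow_pos hpos h).ne'
  obtain ⟨c, hc⟩ : ∃ c, c = ∫ t, f t := ⟨_, rfl⟩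
  rw [← hc] at hpos
  obtain ⟨L, hL⟩ := dense_coset H Finset.univ hH' G hG (c/2) (half_pos hpos)
  obtain ⟨n, hn⟩ : ∃ n, n = 2 ^ L + 1 := ⟨_, rfl⟩
  have h1 := pow_le_free W hfm hf H hz' n
  rw [← hc, ← hW] at h1
  have h2 := free_le G H L (c/2) (half_pos hpos).le (by
    intro A hA
    by_contra hlt
    push Not at hlt
    exact hA (hL L le_rfl A hlt.le)) n
  have h3 := le_trans h1 h2
  have h4 : c ^ n = 2 ^ n * (c/2)^n := by
    rw [← mul_pow]; congr 1; ring
  rw [h4] at h3
  have h5 : (0:ℝ) < (c/2)^n := pow_pos (half_pos hpos) n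
  have h6 : (2:ℝ)^n ≤ 2 ^ (2 ^ L) := le_of_mul_le_mul_right h3 h5
  have h7 : (2:ℝ) ^ (2 ^ L) < 2 ^ n := pow_lt_pow_right₀ (by norm_num) (by omega)
  linarith

theorem mem_PhiF (G : ℕ → Prop) (hG : Inf G) : dens (blow G) ∈ PhiF := by
  have hlim : IsLimit (dens (blow G)) := ⟨blow G, rfl⟩
  refine ⟨hlim, ?_, ?_⟩
  · exact Set.Subset.antisymm ((P_subset_Q hlim).trans (Q_subset G)) (subset_P G hG)
  · exact Set.Subset.antisymm (Q_subset G) ((subset_P G hG).trans (P_subset_Q hlim))

/-- append zeros in front -/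
def app (p : ℕ) {m : ℕ} (w : Fin m → Bool) : Fin (p + m) → Bool := Fin.append (fun _ => false) w

theorem app_inj (p : ℕ) {m : ℕ} {w w' : Fin m → Bool} (h : app p w = app p w') : w = w' := by
  funext i
  have := congrFun h (Fin.natAdd p i)
  simpa [app] using this

theorem tadj_app (G : ℕ → Prop) (p m : ℕ) (hG : ∀ i, p ≤ i → i < p + m → G i)
    {w w' : Fin m → Bool} (h : w ≠ w') : tadj G (app p w) (app p w') := by
  classical
  have hex : ∃ i : ℕ, ∃ h : i < p + m, app p w ⟨i, h⟩ ≠ app p w' ⟨i, h⟩ := by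
    obtain ⟨i, hi⟩ := Function.ne_iff.1 h
    refine ⟨(Fin.natAdd p i).1, (Fin.natAdd p i).2, ?_⟩
    show app p w (Fin.natAdd p i) ≠ app p w' (Fin.natAdd p i)
    simp only [app, Fin.append_right]
    exact hi
  obtain ⟨l, hl⟩ : ∃ l, l = Nat.find hex := ⟨_, rfl⟩
  obtain ⟨h1, h2⟩ : ∃ h : l < p + m, app p w ⟨l, h⟩ ≠ app p w' ⟨l, h⟩ := by
    rw [hl]; exact Nat.find_spec hex
  refine ⟨⟨l, h1⟩, ?_, ?_, h2⟩
  · apply hG l _ h1
    by_contra hlt
    push Not at hlt
    apply h2
    have hcast : (⟨l, h1⟩ : Fin (p+m)) = Fin.castAdd m ⟨l, hlt⟩ := rfl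
    rw [hcast]
    simp only [app, Fin.append_left]
  · intro j hj
    by_contra hne
    exact Nat.find_min hex (m := j.1) (by rw [← hl]; exact hj) ⟨j.2, hne⟩

/-- lower bound for the density of cliques -/
theorem clique_ge (G : ℕ → Prop) (p m n : ℕ) (hm : 1 ≤ m) (hn : n ≤ 2 ^ (m-1))
    (hG : ∀ i, p ≤ i → i < p + m → G i) :
    ((1/2:ℝ) ^ (p+1)) ^ n ≤ dens (blow G) n ⊤ := by
  classical
  obtain ⟨S, hSdef⟩ : ∃ S : (Fin n ↪ (Fin m → Bool)) → Set (Fin n → unitInterval),
    S = fun a => {x | ∀ i, cell (p+m) (x i) = app p (a i)} := ⟨_, rfl⟩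
  have hSpi : ∀ a, S a = Set.univ.pi (fun i => {y | cell (p+m) y = app p (a i)}) := by
    intro a; rw [hSdef]; ext x; simp
  have hSm : ∀ a, MeasurableSet (S a) := by
    intro a
    rw [hSpi]
    apply MeasurableSet.univ_pi
    intro i
    exact measurable_cell (p+m) (measurableSet_singleton _)
  have hSvol : ∀ a, volume (S a) = ENNReal.ofReal (((1/2:ℝ) ^ (p+m)) ^ n) := by
    intro a
    rw [hSpi, volume_pi, Measure.pi_pi]
    simp only [vol_cell]
    rw [Finset.prod_const, Finset.card_univ, Fintype.card_fin,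
      ← ENNReal.ofReal_pow (by positivity)]
  have hpt : ∀ x : Fin n → unitInterval,
      ∑ a : (Fin n ↪ (Fin m → Bool)), (S a).indicator (fun _ => (1:ℝ)) x
        ≤ ind (blow G) (⊤ : SimpleGraph (Fin n)) x := by
    intro x
    by_cases hex : ∃ a, x ∈ S a
    · obtain ⟨a, ha⟩ := hex
      have huniq : ∀ b, b ≠ a → (S b).indicator (fun _ => (1:ℝ)) x = 0 := by
        intro b hb
        apply Set.indicator_of_notMem
        intro hxb
        apply hb
        rw [hSdef] at ha hxb
        ext1 i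
        exact app_inj p ((hxb i).symm.trans (ha i))
      rw [Finset.sum_eq_single a (fun b _ hb => huniq b hb) (by simp),
        Set.indicator_of_mem ha]
      rw [ind_blow_eq_one]
      intro i j hij
      rw [SimpleGraph.top_adj]
      refine ⟨fun _ => ?_, fun _ => hij⟩
      rw [hSdef] at ha
      have hne : cell (p+m) (x i) ≠ cell (p+m) (x j) := by
        rw [ha i, ha j]
        intro h
        exact hij (a.injective (app_inj p h))
      rw [sadj_iff_tadj G (p+m) _ _ hne, ha i, ha j]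
      exact tadj_app G p m hG (fun h => hij (a.injective h))
    · push Not at hex
      rw [Finset.sum_eq_zero]
      · exact ind_nonneg _ _ _
      · intro a _
        exact Set.indicator_of_notMem (hex a) _
  have hint : ∫ x : Fin n → unitInterval,
      ∑ a : (Fin n ↪ (Fin m → Bool)), (S a).indicator (fun _ => (1:ℝ)) x
      = (Fintype.card (Fin n ↪ (Fin m → Bool)) : ℝ) * ((1/2:ℝ) ^ (p+m)) ^ n := by
    rw [integral_finsetSum]
    · have : ∀ a, ∫ x : Fin n → unitInterval, (S a).indicator (fun _ => (1:ℝ)) x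
          = ((1/2:ℝ) ^ (p+m)) ^ n := by
        intro a
        rw [integral_indicator (hSm a), setIntegral_const]
        simp only [smul_eq_mul, mul_one]
        rw [measureReal_def, hSvol, ENNReal.toReal_ofReal (by positivity)]
      simp only [this]
      rw [Finset.sum_const, nsmul_eq_mul, Finset.card_univ]
    · intro a _
      exact (integrable_const (1:ℝ)).indicator (hSm a)
  have h1 : (Fintype.card (Fin n ↪ (Fin m → Bool)) : ℝ) * ((1/2:ℝ) ^ (p+m)) ^ n
      ≤ dens (blow G) n ⊤ := by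
    rw [← hint]
    unfold dens
    apply integral_mono
    · apply integrable_finsetSum
      intro a _
      exact (integrable_const (1:ℝ)).indicator (hSm a)
    · exact integrable_ind _ _
    · exact hpt
  refine le_trans ?_ h1
  have hcard : (2 ^ (m-1)) ^ n ≤ Fintype.card (Fin n ↪ (Fin m → Bool)) := by
    rw [Fintype.card_embedding_eq]
    simp only [Fintype.card_fin, Fintype.card_pi, Fintype.card_bool, Finset.prod_const,
      Finset.card_univ]
    have h2 : 2 ^ m = 2 * 2 ^ (m-1) := by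
      rw [← pow_succ']; congr 1; omega
    refine le_trans ?_ (Nat.pow_sub_le_descFactorial (2 ^ m) n)
    apply Nat.pow_le_pow_left
    omega
  have hcard' : ((2:ℝ) ^ (m-1)) ^ n ≤ (Fintype.card (Fin n ↪ (Fin m → Bool)) : ℝ) := by
    exact_mod_cast hcard
  have h3 : ((1/2:ℝ) ^ (p+1)) ^ n = ((2:ℝ) ^ (m-1)) ^ n * ((1/2:ℝ) ^ (p+m)) ^ n := by
    rw [← mul_pow]
    congr 1
    have : p + m = (p + 1) + (m - 1) := by omega
    rw [this, pow_add (1/2:ℝ) (p+1) (m-1), mul_comm, mul_assoc, ← mul_pow]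
    norm_num
  rw [h3]
  exact mul_le_mul_of_nonneg_right hcard' (by positivity)

/-- the `s`-th sequence: `K_2` exactly on the blocks `[8^k, 8^(k+1))` with `(unpair k).1 = s` -/
def st (s : ℕ) (i : ℕ) : Prop := (Nat.unpair (Nat.log 8 i)).1 = s

theorem log_block {k i : ℕ} (h1 : 8 ^ k ≤ i) (h2 : i < 8 ^ (k+1)) : Nat.log 8 i = k :=
  Nat.log_eq_of_pow_le_of_lt_pow h1 h2

theorem le_eight_pow (k : ℕ) : k ≤ 8 ^ k := (Nat.lt_pow_self (by norm_num)).le

theorem inf_st (s : ℕ) : Inf (st s) := by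
  refine ⟨fun N => ?_, fun N => ?_⟩
  · refine ⟨8 ^ (Nat.pair s N), le_trans (Nat.right_le_pair s N) (le_eight_pow _), ?_⟩
    unfold st
    rw [log_block le_rfl (Nat.pow_lt_pow_right (by norm_num) (Nat.lt_succ_self _))]
    simp
  · refine ⟨8 ^ (Nat.pair (s+1) N), le_trans (Nat.right_le_pair (s+1) N) (le_eight_pow _), ?_⟩
    unfold st
    rw [log_block le_rfl (Nat.pow_lt_pow_right (by norm_num) (Nat.lt_succ_self _))]
    simp

/-- upper bound for the density of cliques -/
theorem clique_le (G : ℕ → Prop) (p : ℕ) (hG : ∀ i, p ≤ i → i < 3 * p → ¬ G i) (n : ℕ) :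
    dens (blow G) n ⊤ ≤ 2 ^ (2 ^ (3*p)) * ((1/2:ℝ)^(2*p)) ^ n := by
  classical
  have hfree := free_le G (⊥ : SimpleGraph (Fin 2)) (3*p) ((1/2:ℝ)^(2*p)) (by positivity) (by
    intro A hA
    have hcard : A.card ≤ 2 ^ p := by
      have hle : p ≤ 3 * p := by omega
      have hinj : Set.InjOn (fun (u : Fin (3*p) → Bool) (i : Fin p) => u (Fin.castLE hle i))
          (A : Set (Fin (3*p) → Bool)) := by
        intro u hu v hv huv
        by_contra hne
        apply hA
        refine ⟨fun a => if a = 0 then u else v, ?_, ?_, ?_⟩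
        · intro a _ b _ hab
          simp only at hab
          by_cases ha : a = 0 <;> by_cases hb : b = 0
          · rw [ha, hb]
          · rw [if_pos ha, if_neg hb] at hab; exact absurd hab hne
          · rw [if_neg ha, if_pos hb] at hab; exact absurd hab.symm hne
          · have h1 := Fin.eq_one_of_ne_zero a ha
            have h2 := Fin.eq_one_of_ne_zero b hb
            rw [h1, h2]
        · intro a _
          simp only
          split_ifs
          · exact hu
          · exact hv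
        · have hnt : ∀ u v : Fin (3*p) → Bool,
              ((fun i : Fin p => u (Fin.castLE hle i)) = fun i => v (Fin.castLE hle i)) →
              ¬ tadj G u v := by
            rintro u v huv ⟨i, hGi, hj, hi⟩
            by_cases hip : i.1 < p
            · have := congrFun huv ⟨i.1, hip⟩
              exact hi this
            · exact hG i.1 (not_lt.1 hip) i.2 hGi
          intro a _ b _ hab
          simp only [SimpleGraph.bot_adj, false_iff]
          apply hnt
          by_cases ha : a = 0 <;> by_cases hb : b = 0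
          · rw [ha, hb] at hab; exact absurd rfl hab
          · rw [if_pos ha, if_neg hb]; exact huv
          · rw [if_neg ha, if_pos hb]; exact huv.symm
          · have h1 := Fin.eq_one_of_ne_zero a ha
            have h2 := Fin.eq_one_of_ne_zero b hb
            rw [h1, h2] at hab; exact absurd rfl hab
      have h1 := Finset.card_le_card_of_injOn
        (fun (u : Fin (3*p) → Bool) (i : Fin p) => u (Fin.castLE hle i))
        (s := A) (t := Finset.univ) (fun u _ => Finset.mem_univ _) hinj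
      have h2 : (Finset.univ : Finset (Fin p → Bool)).card = 2 ^ p := by simp
      rw [h2] at h1
      exact h1
    have h3 : ((1/2:ℝ)^(2*p)) * 2 ^ (3*p) = 2 ^ p := by
      have : 3 * p = 2 * p + p := by ring
      rw [this, pow_add, ← mul_assoc, ← mul_pow]
      norm_num
    rw [h3]
    exact_mod_cast hcard) n
  refine le_trans ?_ hfree
  have htop : (⊤ : SimpleGraph (Fin n)) = gr (pairs n) := by
    ext i j
    rw [SimpleGraph.top_adj, gr, SimpleGraph.fromRel_adj]
    constructor
    · intro h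
      refine ⟨h, ?_⟩
      rcases lt_or_gt_of_ne h with h' | h'
      · left; simpa [pairs] using h'
      · right; simpa [pairs] using h'
    · rintro ⟨h, _⟩; exact h
  have hmem : pairs n ∈ (pairs n).powerset.filter
      (fun t => ¬ Contains (gr t) (⊥ : SimpleGraph (Fin 2))) := by
    rw [Finset.mem_filter]
    refine ⟨Finset.mem_powerset_self _, ?_⟩
    rintro ⟨e, he, hadj⟩
    rw [← htop] at hadj
    have := hadj 0 1
    rw [SimpleGraph.top_adj] at this
    simp only [SimpleGraph.bot_adj, false_iff, not_not] at this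
    exact absurd (he this) (by simp)
  rw [htop]
  exact Finset.single_le_sum (f := fun t => dens (blow G) n (gr t))
    (fun t _ => dens_nonneg _ _) hmem

theorem not_subObj {s t : ℕ} (hst : s ≠ t) :
    ¬ SubObj (dens (blow (st s))) (dens (blow (st t))) := by
  rintro ⟨W, f, hW, hfm, hf, hpos, hψ⟩
  obtain ⟨c, hc⟩ : ∃ c, c = ∫ u, f u := ⟨_, rfl⟩
  obtain ⟨N, hN⟩ := exists_pow_lt_of_lt_one (show (0:ℝ) < c/4 by rw [hc]; linarith)
    (by norm_num : (1/2:ℝ) < 1)
  obtain ⟨k, hk⟩ : ∃ k, k = Nat.pair s N := ⟨_, rfl⟩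
  obtain ⟨p, hp⟩ : ∃ p, p = 8 ^ k := ⟨_, rfl⟩
  obtain ⟨n, hn⟩ : ∃ n, n = 2 ^ (3*p) := ⟨_, rfl⟩
  have hp1 : 1 ≤ p := by rw [hp]; exact Nat.one_le_pow _ _ (by norm_num)
  have hpN : N ≤ p := by
    rw [hp, hk]
    exact le_trans (Nat.right_le_pair s N) (le_eight_pow _)
  have hblock : ∀ i, p ≤ i → i < 8 * p → Nat.log 8 i = k := by
    intro i h1 h2
    apply log_block
    · rw [← hp]; exact h1
    · rw [pow_succ, ← hp, mul_comm]; exact h2
  have hup : (Nat.unpair k).1 = s := by rw [hk]; simp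
  have h1 := clique_ge (st s) p (7*p) n (by omega) (by
    rw [hn]; exact Nat.pow_le_pow_right (by norm_num) (by omega)) (by
    intro i h1 h2
    unfold st
    rw [hblock i h1 (by omega)]; exact hup)
  have h2 := clique_le (st t) p (by
    intro i h1 h2 hcon
    unfold st at hcon
    rw [hblock i h1 (by omega), hup] at hcon
    exact hst hcon) n
  have h3 := pow_mul_le W hfm hf hpos (⊤ : SimpleGraph (Fin n))
  rw [← hψ, ← hW, ← hc] at h3
  have hc0 : 0 < c := by rw [hc]; exact hpos
  have h4 : c ^ n * ((1/2:ℝ) ^ (p+1)) ^ n ≤ 2 ^ (2 ^ (3*p)) * ((1/2:ℝ)^(2*p)) ^ n :=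
    le_trans (mul_le_mul_of_nonneg_left h1 (by positivity)) (le_trans h3 h2)
  rw [← hn, ← mul_pow, ← mul_pow] at h4
  have hn0 : n ≠ 0 := by rw [hn]; positivity
  have h5 : c * (1/2:ℝ) ^ (p+1) ≤ 2 * (1/2:ℝ)^(2*p) :=
    le_of_pow_le_pow_left₀ hn0 (by positivity) h4
  have h6 : (1/2:ℝ)^(2*p) = (1/2:ℝ)^p * (1/2:ℝ)^p := by
    rw [← pow_add]; congr 1; ring
  rw [h6, pow_succ] at h5
  have h7 : (0:ℝ) < (1/2:ℝ)^p := by positivity
  have h8 : c ≤ 4 * (1/2:ℝ)^p := by
    by_contra hcon
    push Not at hcon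
    have : 4 * (1/2:ℝ)^p * (1/2:ℝ)^p < c * (1/2:ℝ)^p := mul_lt_mul_of_pos_right hcon h7
    nlinarith
  have h9 : (1/2:ℝ)^p ≤ (1/2:ℝ)^N := pow_le_pow_of_le_one (by norm_num) (by norm_num) hpN
  linarith

/-- Q1 and Q2 of MP_815355_co: two incomparable elements, and an infinite antichain. -/
theorem result :
    (∃ φ ∈ PhiF, ∃ ψ ∈ PhiF, ¬ SubObj φ ψ ∧ ¬ SubObj ψ φ) ∧
    (∃ A : Set Param, A ⊆ PhiF ∧ A.Infinite ∧
      ∀ φ ∈ A, ∀ ψ ∈ A, φ ≠ ψ → ¬ SubObj φ ψ ∧ ¬ SubObj ψ φ) := by
  refine ⟨⟨dens (blow (st 0)), mem_PhiF _ (inf_st 0), dens (blow (st 1)), mem_PhiF _ (inf_st 1),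
    not_subObj (by norm_num), not_subObj (by norm_num)⟩, ?_⟩
  refine ⟨Set.range (fun s => dens (blow (st s))), ?_, ?_, ?_⟩
  · rintro φ ⟨s, rfl⟩
    exact mem_PhiF _ (inf_st s)
  · apply Set.infinite_range_of_injective
    intro s t hst
    by_contra hne
    apply not_subObj hne
    have h2 : dens (blow (st s)) = dens (blow (st t)) := hst
    rw [h2]
    exact subObj_refl ⟨_, rfl⟩
  · rintro φ ⟨s, rfl⟩ ψ ⟨t, rfl⟩ hne
    have hst : s ≠ t := fun h => hne (by rw [h])
    exact ⟨not_subObj hst, not_subObj hst.symm⟩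

end Pool.Agent.Results.MP_815355_co.Antichain
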